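import Mathlib
import Pool.Agent.Helper514.IoD

/-!
# Project OC: topological lemmas on families of embeddings of a ball
-/

set_option autoImplicit false

open Set Filter Topology Metric Function

namespace Pool.Agent.N710.OC

variable {E : Type*} [NormedAddCommGroup E] [InnerProductSpace ℝ E] [FiniteDimensional ℝ E]

/-- The image of the open ball is open. -/
theorem image_open {g : E → E} {r : ℝ} (hg : ContinuousOn g (closedBall 0 r))
    (hgi : InjOn g (closedBall 0 r)) : IsOpen (g '' ball 0 r) := by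
  rw [isOpen_iff_mem_nhds]
  rintro _ ⟨y, hy, rfl⟩
  obtain ⟨δ, hδ, hsub⟩ := Metric.isOpen_iff.mp isOpen_ball y hy
  have h1 : closedBall y (δ / 2) ⊆ ball (0 : E) r :=
    (closedBall_subset_ball (by linarith)).trans hsub
  have h2 := Pool.Agent.Helper514.IoD.image_mem_nhds g y (δ / 2) (by linarith)
    (hg.mono (h1.trans ball_subset_closedBall)) (hgi.mono (h1.trans ball_subset_closedBall))
  exact mem_of_superset h2 (image_mono h1)

/-- A preconnected set which misses the image of the sphere and meets the image of the ball is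
contained in the image of the ball. -/
theorem sub_image {g : E → E} {r : ℝ} (hg : ContinuousOn g (closedBall 0 r))
    (hgi : InjOn g (closedBall 0 r)) {V : Set E} (hV : IsPreconnected V)
    (hsph : ∀ z, ‖z‖ = r → g z ∉ V) {y : E} (hy : ‖y‖ < r) (hyV : g y ∈ V) :
    V ⊆ g '' ball 0 r := by
  have hopen := image_open hg hgi
  have hext : IsOpen ((g '' closedBall 0 r)ᶜ) :=
    ((isCompact_closedBall (0 : E) r).image_of_continuousOn hg).isClosed.isOpen_compl
  refine IsPreconnected.subset_left_of_subset_union hopen hext ?_ ?_ ?_ hV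
  · rw [Set.disjoint_left]
    intro z hz hz'
    exact hz' (image_mono ball_subset_closedBall hz)
  · intro z hz
    by_cases h : z ∈ g '' closedBall 0 r
    · left
      obtain ⟨w, hw, rfl⟩ := h
      rw [mem_closedBall, dist_zero_right] at hw
      rcases lt_or_eq_of_le hw with h | h
      · exact ⟨w, by rwa [mem_ball, dist_zero_right], rfl⟩
      · exact absurd hz (hsph w h)
    · right; exact h
  · exact ⟨g y, hyV, y, by rwa [mem_ball, dist_zero_right], rfl⟩

/-- Two embeddings of the closed ball which agree near the sphere have the same image. -/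
theorem image_sub {f g : E → E} {r r' : ℝ} (hr' : 0 < r') (hrr : r' < r)
    (hf : ContinuousOn f (closedBall 0 r)) (hg : ContinuousOn g (closedBall 0 r))
    (hfi : InjOn f (closedBall 0 r)) (hgi : InjOn g (closedBall 0 r))
    (heq : ∀ y, r' ≤ ‖y‖ → ‖y‖ ≤ r → f y = g y) {v : E} (hv : v ≠ 0) :
    f '' ball 0 r ⊆ g '' ball 0 r := by
  have hvn : 0 < ‖v‖ := norm_pos_iff.mpr hv
  have hy : ‖(r' / ‖v‖) • v‖ = r' := by
    rw [norm_smul, Real.norm_eq_abs, abs_of_pos (by positivity)]
    field_simp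
  refine sub_image hg hgi (y := (r' / ‖v‖) • v) ?_ ?_ (by rw [hy]; exact hrr) ?_
  · exact ((convex_ball (0 : E) r).isPreconnected).image f (hf.mono ball_subset_closedBall)
  · rintro z hz ⟨y, hy, hyz⟩
    rw [← heq z (by rw [hz]; exact hrr.le) hz.le] at hyz
    have h1 := hfi (ball_subset_closedBall hy) (by rw [mem_closedBall, dist_zero_right]; exact hz.le)
      hyz
    rw [h1, mem_ball, dist_zero_right, hz] at hy
    exact lt_irrefl _ hy
  · exact ⟨(r' / ‖v‖) • v, by rw [mem_ball, dist_zero_right, hy]; exact hrr,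
      heq _ hy.ge (by rw [hy]; exact hrr.le)⟩

theorem image_eq {f g : E → E} {r r' : ℝ} (hr' : 0 < r') (hrr : r' < r)
    (hf : ContinuousOn f (closedBall 0 r)) (hg : ContinuousOn g (closedBall 0 r))
    (hfi : InjOn f (closedBall 0 r)) (hgi : InjOn g (closedBall 0 r))
    (heq : ∀ y, r' ≤ ‖y‖ → ‖y‖ ≤ r → f y = g y) {v : E} (hv : v ≠ 0) :
    f '' ball 0 r = g '' ball 0 r :=
  (image_sub hr' hrr hf hg hfi hgi heq hv).antisymm
    (image_sub hr' hrr hg hf hgi hfi (fun y h1 h2 => (heq y h1 h2).symm) hv)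

theorem image_closed_eq {f g : E → E} {r r' : ℝ} (hr' : 0 < r') (hrr : r' < r)
    (hf : ContinuousOn f (closedBall 0 r)) (hg : ContinuousOn g (closedBall 0 r))
    (hfi : InjOn f (closedBall 0 r)) (hgi : InjOn g (closedBall 0 r))
    (heq : ∀ y, r' ≤ ‖y‖ → ‖y‖ ≤ r → f y = g y) {v : E} (hv : v ≠ 0) :
    f '' closedBall 0 r = g '' closedBall 0 r := by
  have h := image_eq hr' hrr hf hg hfi hgi heq hv
  have h3 : closedBall (0 : E) r = ball 0 r ∪ sphere 0 r := ball_union_sphere.symm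
  have h4 : f '' sphere 0 r = g '' sphere 0 r := by
    refine image_congr fun z hz => heq z ?_ ?_
    · rw [mem_sphere, dist_zero_right] at hz; rw [hz]; exact hrr.le
    · rw [mem_sphere, dist_zero_right] at hz; exact hz.le
  rw [h3, image_union, image_union, h, h4]

/-- For small `t` the image of the ball under `G t` contains a fixed ball around `G t₀ 0`. -/
theorem ball_sub {G : ℝ → E → E} {r : ℝ} (hr : 0 < r) {t₀ : ℝ}
    (hc : ∀ y, ‖y‖ ≤ r → ContinuousAt (fun p : ℝ × E => G p.1 p.2) (t₀, y))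
    (hc' : ∀ᶠ t in 𝓝 t₀, ContinuousOn (G t) (closedBall 0 r))
    (hi : ∀ᶠ t in 𝓝 t₀, InjOn (G t) (closedBall 0 r)) :
    ∃ d > 0, ∀ᶠ t in 𝓝 t₀, ball (G t₀ 0) d ⊆ G t '' ball 0 r := by
  have hi0 := hi.self_of_nhds
  have hc0 := hc'.self_of_nhds
  -- the distance to the sphere
  have hcomp : IsCompact (G t₀ '' sphere 0 r) :=
    (isCompact_sphere (0 : E) r).image_of_continuousOn (hc0.mono sphere_subset_closedBall)
  have hnot : G t₀ 0 ∉ G t₀ '' sphere 0 r := by
    rintro ⟨z, hz, hzz⟩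
    have := hi0 (sphere_subset_closedBall hz) (mem_closedBall_self hr.le) hzz
    rw [this, mem_sphere, dist_self] at hz
    exact hr.ne hz
  obtain ⟨d, hd, hdd⟩ := Metric.isOpen_iff.mp hcomp.isClosed.isOpen_compl _ hnot
  refine ⟨d / 2, by linarith, ?_⟩
  have h1 : ∀ᶠ t in 𝓝 t₀, ∀ y ∈ sphere (0 : E) r, G t y ∉ ball (G t₀ 0) (d / 2) := by
    refine (isCompact_sphere (0 : E) r).eventually_forall_of_forall_eventually fun y hy => ?_
    have hy' : ‖y‖ ≤ r := by rw [mem_sphere, dist_zero_right] at hy; exact hy.le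
    have h2 : G t₀ y ∉ closedBall (G t₀ 0) (d / 2) := fun h =>
      hdd (closedBall_subset_ball (by linarith) h) ⟨y, hy, rfl⟩
    have h3 : ∀ᶠ p : ℝ × E in 𝓝 (t₀, y), G p.1 p.2 ∈ (closedBall (G t₀ 0) (d / 2))ᶜ :=
      (hc y hy').eventually_mem (isClosed_closedBall.isOpen_compl.mem_nhds h2)
    exact h3.mono fun p hp h => hp (ball_subset_closedBall h)
  have h2 : ∀ᶠ t in 𝓝 t₀, G t 0 ∈ ball (G t₀ 0) (d / 2) := by
    have h3 : ContinuousAt (fun t : ℝ => G t 0) t₀ :=
      ContinuousAt.comp (g := fun p : ℝ × E => G p.1 p.2) (f := fun t : ℝ => (t, (0 : E)))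
        (x := t₀) (hc 0 (by rw [norm_zero]; exact hr.le)) (by fun_prop)
    exact h3.eventually_mem (ball_mem_nhds _ (by linarith))
  filter_upwards [h1, h2, hc', hi] with t h1 h2 h3 h4
  refine sub_image h3 h4 (y := 0) ((convex_ball _ _).isPreconnected) ?_ (by rwa [norm_zero]) h2
  intro z hz
  exact h1 z (by rw [mem_sphere, dist_zero_right]; exact hz)

/-- Preimages depend continuously on the point. -/
theorem preimage_near {G : ℝ → E → E} {r : ℝ} {t₀ : ℝ} {z₀ : E}
    (hc : ∀ y, ‖y‖ ≤ r → ContinuousAt (fun p : ℝ × E => G p.1 p.2) (t₀, y)) {N : Set E}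
    (hN : IsOpen N) (h : ∀ y, ‖y‖ ≤ r → G t₀ y = z₀ → y ∈ N) :
    ∀ᶠ p : ℝ × E in 𝓝 (t₀, z₀), ∀ y, ‖y‖ ≤ r → G p.1 y = p.2 → y ∈ N := by
  have hK : IsCompact (closedBall (0 : E) r \ N) := (isCompact_closedBall (0 : E) r).diff hN
  have h1 : ∀ᶠ p : ℝ × E in 𝓝 (t₀, z₀), ∀ y ∈ closedBall (0 : E) r \ N, G p.1 y ≠ p.2 := by
    refine hK.eventually_forall_of_forall_eventually fun y hy => ?_
    have hy' : ‖y‖ ≤ r := by simpa using hy.1
    have hne : G t₀ y ≠ z₀ := fun h' => hy.2 (h y hy' h')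
    have h2 : ContinuousAt (fun q : (ℝ × E) × E => (G q.1.1 q.2, q.1.2)) ((t₀, z₀), y) := by
      refine ContinuousAt.prodMk ?_ (by fun_prop)
      exact ContinuousAt.comp (g := fun p : ℝ × E => G p.1 p.2)
        (f := fun q : (ℝ × E) × E => (q.1.1, q.2)) (x := ((t₀, z₀), y)) (hc y hy') (by fun_prop)
    have h3 : ∀ᶠ q : (ℝ × E) × E in 𝓝 ((t₀, z₀), y), (G q.1.1 q.2, q.1.2) ∈ (diagonal E)ᶜ :=
      h2.eventually_mem (isClosed_diagonal.isOpen_compl.mem_nhds hne)
    exact h3.mono fun q hq h' => hq h'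
  filter_upwards [h1] with p hp y hy hpy
  by_contra hyN
  exact hp y ⟨by rwa [mem_closedBall, dist_zero_right], hyN⟩ hpy

end Pool.Agent.N710.OC
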